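import Pool.Agent.V11131.Cov3

/-!
# Covering numbers of virtually abelian groups

For every group `G` with an abelian subgroup of finite index, the semigroup covering number
`σ_s(G)` is `2` or equals the subgroup covering number `σ_g(G)`.
-/

namespace Pool.Agent.Results.MP_7fa642_al.VirtuallyAbelian

open Pool.Agent.V11131.Cov

theorem result (G : Type) [Group G] (A : Subgroup G) [A.FiniteIndex]
    (hA : ∀ a ∈ A, ∀ b ∈ A, a * b = b * a) : sigmaS G = 2 ∨ sigmaS G = sigmaG G :=
  main A hA

end Pool.Agent.Results.MP_7fa642_al.VirtuallyAbelian
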